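import Pool.Agent.helper41.G5.SpecG

/-! # d2:gFNC: piecewise affine functions and bi-Lipschitz maps -/

set_option autoImplicit false

open Filter Topology MeasureTheory

namespace Pool.Agent.helper90.DH

open Pool.Agent.helper64.D2

theorem gFNC_dist (C : ℝ → ℝ) (hC : NL C) (x y : ℝ) : |x - y| ≤ 10 / 9 * |C x - C y| := by
  rcases le_total x y with h | h
  · have h1 := (hC x y h).1
    rw [abs_sub_comm x y, abs_sub_comm (C x) (C y), abs_of_nonneg (sub_nonneg.2 h), abs_of_nonneg (by linarith)]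
    linarith
  · have h1 := (hC y x h).1
    rw [abs_of_nonneg (sub_nonneg.2 h), abs_of_nonneg (by linarith)]
    linarith

theorem gFNC_mono (C : ℝ → ℝ) (hC : NL C) : Monotone C := by
  intro x y h
  have h1 := (hC x y h).1
  linarith

theorem gFNC_map (C : ℝ → ℝ) (hC : NL C) :
    Measure.map C (volume : Measure ℝ) ≤ ENNReal.ofReal (10 / 9) • (volume : Measure ℝ) := by
  have hm : Measurable C := (gFNC_mono C hC).measurable
  have hA : AntilipschitzWith (Real.toNNReal (10 / 9)) C := by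
    refine AntilipschitzWith.of_le_mul_dist fun x y => ?_
    rw [Real.coe_toNNReal _ (by norm_num), Real.dist_eq, Real.dist_eq]
    exact gFNC_dist C hC x y
  refine Measure.le_iff.2 fun A hA' => ?_
  rw [Measure.map_apply hm hA', Measure.smul_apply, smul_eq_mul, ← hausdorffMeasure_real]
  refine le_trans (hA.hausdorffMeasure_preimage_le zero_le_one A) (le_of_eq ?_)
  rw [ENNReal.rpow_one]
  rfl

theorem gFNC_cell (s : ℕ) (x : ℝ) : x ∈ cell s ⌊(2 : ℝ) ^ s * x⌋ := by
  have h2 : (0 : ℝ) < 2 ^ s := by positivity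
  refine ⟨?_, ?_⟩
  · rw [div_le_iff₀ h2, mul_comm x]
    exact Int.floor_le _
  · rw [lt_div_iff₀ h2, mul_comm x]
    exact Int.lt_floor_add_one _

theorem gFNC : gFNC_stmt := by
  intro s f C hf hS hC
  have h2 : (0 : ℝ) < 2 ^ s := by positivity
  choose a b hab using hf
  have hfx : ∀ x, f x = a ⌊(2 : ℝ) ^ s * x⌋ + b ⌊(2 : ℝ) ^ s * x⌋ * x := fun x => hab _ x (gFNC_cell s x)
  have hfm : Measurable f := by
    have h1 : Measurable (fun x : ℝ => ⌊(2 : ℝ) ^ s * x⌋) :=
      Int.measurable_floor.comp (measurable_const.mul measurable_id)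
    have ha : Measurable (fun x : ℝ => a ⌊(2 : ℝ) ^ s * x⌋) := measurable_from_top.comp h1
    have hb : Measurable (fun x : ℝ => b ⌊(2 : ℝ) ^ s * x⌋) := measurable_from_top.comp h1
    have h3 : Measurable (fun x : ℝ => a ⌊(2 : ℝ) ^ s * x⌋ + b ⌊(2 : ℝ) ^ s * x⌋ * x) :=
      ha.add (hb.mul measurable_id)
    have h4 : f = fun x : ℝ => a ⌊(2 : ℝ) ^ s * x⌋ + b ⌊(2 : ℝ) ^ s * x⌋ * x := funext hfx
    rw [h4]
    exact h3
  have hCm : Measurable C := (gFNC_mono C hC).measurable
  set B : ℝ := ∑ k ∈ Finset.Icc (0 : ℤ) (2 ^ s), (|a k| + |b k|) with hBdef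
  have hB0 : 0 ≤ B := Finset.sum_nonneg fun k _ => by positivity
  have hB : ∀ x, |f x| ≤ B := by
    intro x
    by_cases hx : x ∈ Set.Icc (1 / 5 : ℝ) (4 / 5)
    · have hx0 : 0 ≤ x := by linarith [hx.1]
      have hx1 : x ≤ 1 := by linarith [hx.2]
      have hk : ⌊(2 : ℝ) ^ s * x⌋ ∈ Finset.Icc (0 : ℤ) (2 ^ s) := by
        rw [Finset.mem_Icc]
        refine ⟨Int.floor_nonneg.2 (by positivity), ?_⟩
        have h1 : (⌊(2 : ℝ) ^ s * x⌋ : ℝ) ≤ 2 ^ s := le_trans (Int.floor_le _) (by nlinarith)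
        have h3 : ((⌊(2 : ℝ) ^ s * x⌋ : ℤ) : ℝ) ≤ ((2 ^ s : ℤ) : ℝ) := by push_cast; exact h1
        exact Int.cast_le.1 h3
      rw [hfx x]
      calc |a ⌊(2 : ℝ) ^ s * x⌋ + b ⌊(2 : ℝ) ^ s * x⌋ * x|
          ≤ |a ⌊(2 : ℝ) ^ s * x⌋| + |b ⌊(2 : ℝ) ^ s * x⌋ * x| := abs_add_le _ _
        _ ≤ |a ⌊(2 : ℝ) ^ s * x⌋| + |b ⌊(2 : ℝ) ^ s * x⌋| := by
            rw [abs_mul, abs_of_nonneg hx0]
            have := abs_nonneg (b ⌊(2 : ℝ) ^ s * x⌋)
            nlinarith
        _ ≤ B := Finset.single_le_sum (f := fun k => |a k| + |b k|) (fun k _ => by positivity) hk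
    · rw [hS x hx, abs_zero]
      exact hB0
  have hsupp : Function.support f ⊆ Set.Icc (1 / 5 : ℝ) (4 / 5) := by
    intro x hx
    by_contra h
    exact hx (hS x h)
  have hint : Integrable f volume := by
    rw [← integrableOn_iff_integrable_of_support_subset hsupp]
    refine Measure.integrableOn_of_bounded (M := B) ?_ hfm.aestronglyMeasurable ?_
    · rw [Real.volume_Icc]
      exact ENNReal.ofReal_ne_top
    · exact Filter.Eventually.of_forall fun x => by rw [Real.norm_eq_abs]; exact hB x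
  have hsupp2 : Function.support (fun x => f x ^ 2) ⊆ Set.Icc (1 / 5 : ℝ) (4 / 5) := by
    intro x hx
    by_contra h
    exact hx (by show f x ^ 2 = 0; rw [hS x h]; norm_num)
  have hsq : Integrable (fun x => f x ^ 2) volume := by
    rw [← integrableOn_iff_integrable_of_support_subset hsupp2]
    refine Measure.integrableOn_of_bounded (M := B ^ 2) ?_ (hfm.pow_const 2).aestronglyMeasurable ?_
    · rw [Real.volume_Icc]
      exact ENNReal.ofReal_ne_top
    · exact Filter.Eventually.of_forall fun x => by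
        rw [Real.norm_eq_abs, abs_pow]
        exact pow_le_pow_left₀ (abs_nonneg _) (hB x) 2
  have hmap := gFNC_map C hC
  have hsqc : Integrable (fun x => f x ^ 2) (ENNReal.ofReal (10 / 9) • (volume : Measure ℝ)) :=
    hsq.smul_measure ENNReal.ofReal_ne_top
  have hsqm : Integrable (fun x => f x ^ 2) (Measure.map C (volume : Measure ℝ)) := hsqc.mono_measure hmap
  have hsqC : Integrable (fun x => f (C x) ^ 2) volume :=
    (integrable_map_measure (hfm.pow_const 2).aestronglyMeasurable hCm.aemeasurable).1 hsqm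
  refine ⟨hfm, hCm, ⟨B, hB⟩, hint, ?_, ?_, ?_⟩
  · exact (memLp_two_iff_integrable_sq hfm.aestronglyMeasurable).2 hsq
  · exact (memLp_two_iff_integrable_sq (hfm.comp hCm).aestronglyMeasurable).2 hsqC
  · unfold nsq
    have e1 : ∫ x, f (C x) ^ 2 = ∫ y, f y ^ 2 ∂(Measure.map C (volume : Measure ℝ)) :=
      (integral_map hCm.aemeasurable (hfm.pow_const 2).aestronglyMeasurable).symm
    rw [e1]
    refine le_trans (integral_mono_measure hmap (Filter.Eventually.of_forall fun x => sq_nonneg (f x)) hsqc) (le_of_eq ?_)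
    rw [integral_smul_measure, ENNReal.toReal_ofReal (by norm_num), smul_eq_mul]

end Pool.Agent.helper90.DH
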